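import Pool.Agent.H82.LB.Targets
import Pool.Agent.H49.G.BAS

/-!
MP_ee74d2_an, dimension 3: the trivial level set bound for broad arrays, `H ≤ A`.
-/

set_option autoImplicit false

namespace Pool.Agent.H17.LB.BASH

open MeasureTheory Set
open Pool.Agent.H83.G Pool.Agent.H82.LB
open scoped ENNReal NNReal RealInnerProductSpace

/-- a broad array has a large entry -/
theorem exists_of_Brm {ι : Type} {K h : ℝ} {n : ℕ} {I : Finset ι} {c : ι → E 2} {u : ι → ℂ}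
    (hB : Brm K n h I c u) : ∃ k ∈ I, h ≤ ‖u k‖ := by
  obtain ⟨k, hk, h1, -⟩ := hB (fun _ => ((1 : ℝ), (0 : E 2), (0 : ℝ))) (fun _ => by
    rw [Prod.norm_def, Prod.norm_def]
    simp)
  exact ⟨k, hk, h1⟩

/-- the number of points where some entry is large -/
theorem count_array (hSPW : T_SPW) (hPLN : T_PLN) : ∃ C : ℝ, 0 ≤ C ∧
    ∀ (L : ℕ) (κ R A H ρ K : ℝ) (n : ℕ) (ι : Type) (I : Finset ι) (c : ι → E 2)
      (G : ι → Z 2 → ℂ) (X : Finset (Z 2)), 0 ≤ κ → κ ≤ 1 / 2 → 1 ≤ R → 0 < H →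
    Arr L κ R A ρ I c G → Sep X → (∀ z ∈ X, Brm K n H I c fun k => TF (G k) z) →
    (X.card : ℝ) * H ^ 2 ≤ C * ∑ k ∈ I, ∫ ζ, ‖G k ζ‖ ^ 2 := by
  classical
  obtain ⟨C, hC, hcnt⟩ := Pool.Agent.H49.G.BAS.count hSPW hPLN 2
  refine ⟨C, hC, ?_⟩
  intro L κ R A H ρ K n ι I c G X hκ0 hκ hR hH hG hX hXH
  have h1 : X ⊆ I.biUnion fun k => X.filter fun z => H ≤ ‖TF (G k) z‖ := by
    intro z hz
    obtain ⟨k, hk, h2⟩ := exists_of_Brm (hXH z hz)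
    exact Finset.mem_biUnion.2 ⟨k, hk, Finset.mem_filter.2 ⟨hz, h2⟩⟩
  have h2 : (X.card : ℝ) ≤ ∑ k ∈ I, ((X.filter fun z => H ≤ ‖TF (G k) z‖).card : ℝ) := by
    exact_mod_cast (Finset.card_le_card h1).trans Finset.card_biUnion_le
  calc (X.card : ℝ) * H ^ 2
      ≤ (∑ k ∈ I, ((X.filter fun z => H ≤ ‖TF (G k) z‖).card : ℝ)) * H ^ 2 :=
        mul_le_mul_of_nonneg_right h2 (by positivity)
    _ = ∑ k ∈ I, ((X.filter fun z => H ≤ ‖TF (G k) z‖).card : ℝ) * H ^ 2 := Finset.sum_mul _ _ _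
    _ ≤ ∑ k ∈ I, C * ∫ ζ, ‖G k ζ‖ ^ 2 := by
        refine Finset.sum_le_sum fun k hk => ?_
        refine hcnt L κ R A H (G k) _ hκ0 hκ hR hH (hG k hk).1 ?_ ?_
        · intro z hz z' hz' hne
          exact hX z (Finset.mem_filter.1 hz).1 z' (Finset.mem_filter.1 hz').1 hne
        · intro z hz
          exact (Finset.mem_filter.1 hz).2
    _ = C * ∑ k ∈ I, ∫ ζ, ‖G k ζ‖ ^ 2 := (Finset.mul_sum _ _ _).symm

theorem pf_BASH (hSPW : T_SPW) (hPLN : T_PLN) : T_BASH := by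
  intro L
  obtain ⟨C, hC, hcnt⟩ := count_array hSPW hPLN
  refine ⟨C + 1, by linarith, ?_⟩
  intro κ R K ρ A H n ι I c G X hκ0 hκ hR hA hH hHA hG hX hXH
  have hI : 0 ≤ ∑ k ∈ I, ∫ ζ, ‖G k ζ‖ ^ 2 :=
    Finset.sum_nonneg fun k _ => integral_nonneg fun ζ => by positivity
  have h1 := hcnt L κ R A H ρ K n ι I c G X hκ0 hκ hR hH hG hX hXH
  have h2 : H ^ (4 / 3 : ℝ) ≤ A ^ (4 / 3 : ℝ) := Real.rpow_le_rpow hH.le hHA (by norm_num)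
  have h3 : H ^ (10 / 3 : ℝ) = H ^ 2 * H ^ (4 / 3 : ℝ) := by
    have h4 : (10 / 3 : ℝ) = 2 + 4 / 3 := by norm_num
    rw [h4, Real.rpow_add hH, Real.rpow_two]
  have h5 : 0 ≤ H ^ (4 / 3 : ℝ) := Real.rpow_nonneg hH.le _
  have h6 : 0 ≤ A ^ (4 / 3 : ℝ) := Real.rpow_nonneg hA.le _
  rw [h3]
  calc (X.card : ℝ) * (H ^ 2 * H ^ (4 / 3 : ℝ)) = ((X.card : ℝ) * H ^ 2) * H ^ (4 / 3 : ℝ) := by
        ring
    _ ≤ (C * ∑ k ∈ I, ∫ ζ, ‖G k ζ‖ ^ 2) * A ^ (4 / 3 : ℝ) :=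
        mul_le_mul h1 h2 h5 (mul_nonneg hC hI)
    _ ≤ (C + 1) * A ^ (4 / 3 : ℝ) * ∑ k ∈ I, ∫ ζ, ‖G k ζ‖ ^ 2 := by
        have h7 : 0 ≤ A ^ (4 / 3 : ℝ) * ∑ k ∈ I, ∫ ζ, ‖G k ζ‖ ^ 2 := mul_nonneg h6 hI
        nlinarith

end Pool.Agent.H17.LB.BASH
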